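import Pool.Agent.MNT.StmtsT

set_option autoImplicit false

/-!
# MNT, row TRF: the inequality for labelled rooted trees
-/

namespace Pool.Agent.MNT.H20

open Pool.Agent.MNT
open scoped Classical

theorem Bc_pos (g : ℕ) : 0 < Bc g := by
  have h : (0 : ℝ) ≤ g := Nat.cast_nonneg g
  have h1 : (0 : ℝ) < 4 * g + 7 := by positivity
  have h2 : Bc g = (8 * (g : ℝ) ^ 3 + 16 * g ^ 2 + 4 * g + 8) / (4 * g + 7) := by
    unfold Bc kc
    field_simp
    ring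
  rw [h2]
  positivity

theorem kc_ge (g : ℕ) (hg : 2 ≤ g) : (g : ℝ) ≤ kc g := by
  have h : (2 : ℝ) ≤ g := by exact_mod_cast hg
  have h1 : (0 : ℝ) < 4 * g + 7 := by positivity
  unfold kc
  rw [le_div_iff₀ h1]
  nlinarith

theorem lin4 {V : Type} (S : Finset V) (c1 c2 c3 c4 : ℝ) (p1 p2 p3 p4 : V → ℝ) :
    ∑ c ∈ S, (c1 * p1 c + c2 * p2 c + c3 * p3 c + c4 * p4 c) =
      c1 * ∑ c ∈ S, p1 c + c2 * ∑ c ∈ S, p2 c + c3 * ∑ c ∈ S, p3 c + c4 * ∑ c ∈ S, p4 c := by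
  simp only [Finset.sum_add_distrib, Finset.mul_sum]

theorem trf (hRES : ResStmt) (hFLO : FloStmt) (hSBP : SbpStmt) (hHED : HedStmt)
    (hIDJ : IdjStmt) (hHBD : HbdStmt) (hQED : QedStmt) (hNME : NmeStmt) (hNMO : NmoStmt) :
    TrfStmt := by
  intro g hg
  obtain ⟨ε₂, hε₂, hme⟩ := hNME g hg
  obtain ⟨ε₁, hε₁, hmo⟩ := hNMO g hg
  have hg0 : (0 : ℝ) ≤ g := Nat.cast_nonneg g
  have hmpos : (0 : ℝ) < 4 * g + 8 := by positivity
  have hnpos : (0 : ℝ) < 2 * g + 2 := by positivity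
  have hB := Bc_pos g
  have hK := kc_ge g hg
  refine ⟨min ε₁ ((4 * (g : ℝ) + 8) * ε₂), lt_min hε₁ (by positivity), ?_⟩
  intro V _ _ _ T G a b l hl hL
  have hkids : ∀ v, ¬ G v → (T.kids v).Nonempty := by
    intro v hv
    by_contra h
    rw [Finset.not_nonempty_iff_eq_empty] at h
    have h1 := hL.sum_eq v hv
    rw [h, Finset.sum_empty] at h1
    have := hL.a_pos v
    omega
  obtain ⟨s, r, hR⟩ := hRES V T G l hl hL.top hkids
  choose D hD0 hDG hD1 hDQ using hFLO V T G l s r hl hL.top hR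
  refine ⟨D, hD0, hDG, hD1, ?_⟩
  have hsnn : ∀ v, 0 ≤ s v := by
    intro v
    by_cases h : G v
    · rw [hR.s_grd v h]
    · exact (hR.s_pos v h).le
  have hrnn : ∀ c, c ≠ ⊤ → 0 ≤ r c := by
    intro c hc
    by_cases h : G (T.par c)
    · rw [hR.r_grd c hc h]
    · exact (hR.r_pos c hc h).le
  have hLpos : ∀ c, c ≠ ⊤ → 0 < s c + l c + r c := by
    intro c hc
    have := hsnn c
    have := hrnn c hc
    have := hl c hc
    linarith
  have hh0 : ∀ v, G v → hh l s r v = 0 := by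
    intro v hv
    unfold hh
    rw [hR.s_grd v hv, zero_mul, zero_div]
  have hρ : ∀ v, 0 ≤ (b v : ℝ) - ∑ c ∈ T.kids v, (b c : ℝ) := by
    intro v
    have h1 := hL.b_kids v
    have h2 : ((∑ c ∈ T.kids v, b c : ℕ) : ℝ) ≤ (b v : ℝ) := by exact_mod_cast h1
    push_cast at h2
    linarith
  obtain ⟨U, hU⟩ : ∃ U : Finset V, U = Finset.univ.filter (fun c : V => c ≠ ⊤) := ⟨_, rfl⟩
  have hUm : ∀ c ∈ U, c ≠ ⊤ := by
    intro c hc
    rw [hU, Finset.mem_filter] at hc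
    exact hc.2
  have hED := hHED V T G l s r hl hL.top hR
  -- summation by parts
  have sbp : ∀ f : V → ℝ, ∑ v, hh l s r v * (f v - ∑ c ∈ T.kids v, f c) =
      ∑ c ∈ U, f c * DD l s r c := by
    intro f
    have h1 := hSBP V T f (hh l s r)
    rw [h1, hh0 ⊤ hL.top, zero_mul, zero_add, ← hU]
    exact Finset.sum_congr rfl fun c hc => by rw [(hED c (hUm c hc)).2]
  have st3 : ∑ v, ((b v : ℝ) - ∑ c ∈ T.kids v, (b c : ℝ)) * QQ l (fun j => D v j - dl v j) ≤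
      ∑ v, ((b v : ℝ) - ∑ c ∈ T.kids v, (b c : ℝ)) * hh l s r v :=
    Finset.sum_le_sum fun v _ => mul_le_mul_of_nonneg_left (hDQ v) (hρ v)
  have st4 : ∑ v, ((b v : ℝ) - ∑ c ∈ T.kids v, (b c : ℝ)) * hh l s r v =
      ∑ c ∈ U, ((b c : ℝ) - (4 * g + 8) / (2 * g + 2) * a c) * DD l s r c := by
    rw [← sbp]
    refine Finset.sum_congr rfl fun v _ => ?_
    by_cases hv : G v
    · rw [hh0 v hv, mul_zero, zero_mul]
    · have h1 := hL.sum_eq v hv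
      have h2 : (∑ c ∈ T.kids v, (a c : ℝ)) = a v := by exact_mod_cast h1
      rw [Finset.sum_sub_distrib, ← Finset.mul_sum, h2]
      ring
  -- odd edges
  have hodd : ∀ c ∈ U, ¬ Even (a c) → DD l s r c = 0 ∧ JJ l s r c = l c := by
    intro c hc ho
    have hc' := hUm c hc
    have h1 : G c := by
      by_contra h
      exact ho (hL.even c h)
    have h2 : G (T.par c) := by
      by_contra h
      exact ho (hL.kids_even _ h c ((T.mem_kids _ _).2 ⟨hc', rfl⟩))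
    have h3 := hR.s_grd c h1
    have h4 := hR.r_grd c hc' h2
    have h5 := (hl c hc').ne'
    unfold DD JJ
    rw [h3, h4]
    constructor
    · simp
    · have h6 : (0 : ℝ) + l c + 0 = l c := by ring
      have h7 : 3 * ((0 : ℝ) - 0) ^ 2 + l c ^ 2 = l c ^ 2 := by ring
      rw [h6, h7, mul_div_assoc, div_self (pow_ne_zero 2 h5), mul_one]
  obtain ⟨Ue, hUe⟩ : ∃ Ue : Finset V, Ue = U.filter (fun c => Even (a c)) := ⟨_, rfl⟩
  obtain ⟨Uo, hUo⟩ : ∃ Uo : Finset V, Uo = U.filter (fun c => ¬ Even (a c)) := ⟨_, rfl⟩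
  have hUem : ∀ c ∈ Ue, c ∈ U ∧ Even (a c) := by
    intro c hc
    rw [hUe, Finset.mem_filter] at hc
    exact hc
  have hUom : ∀ c ∈ Uo, c ∈ U ∧ ¬ Even (a c) := by
    intro c hc
    rw [hUo, Finset.mem_filter] at hc
    exact hc
  have split : ∀ f : V → ℝ, ∑ c ∈ U, f c = ∑ c ∈ Ue, f c + ∑ c ∈ Uo, f c := by
    intro f
    rw [hUe, hUo, Finset.sum_filter_add_sum_filter_not]
  -- the sums over the even edges
  obtain ⟨S, hS⟩ : ∃ S : ℝ, S = ∑ c ∈ U, (l c - JJ l s r c) := ⟨_, rfl⟩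
  have hSe : S = ∑ c ∈ Ue, l c - ∑ c ∈ Ue, JJ l s r c := by
    rw [hS, split, ← Finset.sum_sub_distrib]
    have h1 : ∑ c ∈ Uo, (l c - JJ l s r c) = 0 :=
      Finset.sum_eq_zero fun c hc => by
        rw [(hodd c (hUom c hc).1 (hUom c hc).2).2, sub_self]
    rw [h1, add_zero]
  have hSb : S ≤ ∑ c ∈ Ue, ee g (a c) * l c := by
    have h1 := hHBD g hg V T G a b l s r hl hL hR
    rw [← hU, ← hS, split] at h1
    have h2 : ∑ c ∈ Uo, ee g (a c) * l c = 0 :=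
      Finset.sum_eq_zero fun c hc => by
        have h3 : Odd (a c) := Nat.not_even_iff_odd.1 (hUom c hc).2
        unfold ee
        rw [if_pos h3, zero_mul]
    rw [h2, add_zero] at h1
    exact h1
  have hP3 : ∑ c ∈ Ue, (1 - 2 * ((a c : ℝ) / (2 * g + 2))) * DD l s r c = -S / 2 := by
    have h1 : ∑ c ∈ U, (1 - 2 * ((a c : ℝ) / (2 * g + 2))) * DD l s r c =
        ∑ c ∈ Ue, (1 - 2 * ((a c : ℝ) / (2 * g + 2))) * DD l s r c := by
      rw [split]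
      have h2 : ∑ c ∈ Uo, (1 - 2 * ((a c : ℝ) / (2 * g + 2))) * DD l s r c = 0 :=
        Finset.sum_eq_zero fun c hc => by
          rw [(hodd c (hUom c hc).1 (hUom c hc).2).1, mul_zero]
      rw [h2, add_zero]
    rw [← h1, ← sbp fun c => 1 - 2 * ((a c : ℝ) / (2 * g + 2))]
    have h2 := hIDJ V T G l s r hl hL.top hR
    rw [← hU, ← hS] at h2
    have h3 : ∀ v, hh l s r v * ((1 - 2 * ((a v : ℝ) / (2 * g + 2))) -
        ∑ c ∈ T.kids v, (1 - 2 * ((a c : ℝ) / (2 * g + 2)))) =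
        if ¬ G v then -((((T.kids v).card : ℝ) - 1) * hh l s r v) else 0 := by
      intro v
      by_cases hv : G v
      · rw [hh0 v hv, if_neg (not_not.2 hv), zero_mul]
      · rw [if_pos hv]
        have h4 := hL.sum_eq v hv
        have h5 : (∑ c ∈ T.kids v, (a c : ℝ)) = a v := by exact_mod_cast h4
        have h6 : ∑ c ∈ T.kids v, (1 - 2 * ((a c : ℝ) / (2 * g + 2))) =
            ((T.kids v).card : ℝ) - 2 * ((a v : ℝ) / (2 * g + 2)) := by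
          rw [Finset.sum_sub_distrib, Finset.sum_const, nsmul_eq_mul, mul_one, ← Finset.mul_sum,
            ← Finset.sum_div, h5]
        rw [h6]
        ring
    rw [Finset.sum_congr rfl fun v _ => h3 v, ← Finset.sum_filter, Finset.sum_neg_distrib]
    linarith
  -- the coefficients
  obtain ⟨c1, hc1⟩ : ∃ c1 : ℝ, c1 = (4 * (g : ℝ) + 8) * (kc g - (g + 1)) := ⟨_, rfl⟩
  obtain ⟨c2, hc2⟩ : ∃ c2 : ℝ, c2 = -((4 * (g : ℝ) + 8) * kc g ^ 2 / (4 * Bc g)) := ⟨_, rfl⟩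
  obtain ⟨c3, hc3⟩ : ∃ c3 : ℝ, c3 = (4 * (g : ℝ) + 8) * (2 * kc g * (3 * g)) / (4 * Bc g) :=
    ⟨_, rfl⟩
  obtain ⟨c4, hc4⟩ : ∃ c4 : ℝ, c4 = -((4 * (g : ℝ) + 8) * (3 * (g : ℝ) ^ 2) / (4 * Bc g)) :=
    ⟨_, rfl⟩
  obtain ⟨d6, hd6⟩ : ∃ d6 : ℝ, d6 = -((4 * (g : ℝ) + 8) * (3 * kc g * g - 3 * (g : ℝ) ^ 2) /
    (4 * Bc g)) := ⟨_, rfl⟩
  have hd6n : d6 ≤ 0 := by
    rw [hd6, neg_nonpos]
    have : 0 ≤ 3 * kc g * g - 3 * (g : ℝ) ^ 2 := by nlinarith
    positivity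
  have hcd : c3 * (-S / 2) + c4 * (∑ c ∈ Ue, l c - S) = c4 * ∑ c ∈ Ue, l c + d6 * S := by
    rw [hc3, hc4, hd6]
    field_simp
    ring
  -- lower bound for one even edge
  have hev : ∀ c ∈ Ue, c1 * ((a c : ℝ) / (2 * g + 2) * (1 - a c / (2 * g + 2)) * l c) +
      c2 * ((1 - 2 * ((a c : ℝ) / (2 * g + 2))) ^ 2 * l c) +
      c3 * ((1 - 2 * ((a c : ℝ) / (2 * g + 2))) * DD l s r c) + c4 * JJ l s r c ≤
      l c * w1 g (a c) (b c) + 3 * g * (4 * g + 8) *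
        ((a c : ℝ) / (2 * g + 2) - b c / (4 * g + 8)) * DD l s r c := by
    intro c hc
    have hc' := hUm c (hUem c hc).1
    have hlc := hl c hc'
    have hLc := hLpos c hc'
    have h1 : DD l s r c ^ 2 ≤ l c * JJ l s r c / 3 := by
      have h2 : l c * JJ l s r c / 3 - DD l s r c ^ 2 =
          l c ^ 4 / (3 * (s c + l c + r c) ^ 2) := by
        unfold DD JJ
        field_simp
        ring
      have h3 : 0 ≤ l c ^ 4 / (3 * (s c + l c + r c) ^ 2) := by positivity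
      linarith
    have h2 := hQED g hg (a c) (b c) (l c) (DD l s r c) (JJ l s r c) hlc h1
    refine le_trans (le_of_eq ?_) h2
    rw [hc1, hc2, hc3, hc4]
    field_simp
    ring
  have hem : ∀ c ∈ Ue, (4 * (g : ℝ) + 8) * ε₂ * l c ≤
      c1 * ((a c : ℝ) / (2 * g + 2) * (1 - a c / (2 * g + 2)) * l c) +
      c2 * ((1 - 2 * ((a c : ℝ) / (2 * g + 2))) ^ 2 * l c) +
      c4 * l c + d6 * (ee g (a c) * l c) := by
    intro c hc
    have hc' := hUm c (hUem c hc).1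
    have hlc := hl c hc'
    have he := (hUem c hc).2
    have h0 := hL.a_pos c
    have h1 : 2 ≤ a c := by
      rcases he with ⟨k, hk⟩
      omega
    have h2 : a c ≤ 2 * g := by
      have h3 := hL.a_le c
      rcases he with ⟨k, hk⟩
      omega
    have h3 := hme (a c) h1 h2 he
    have h4 : (4 * (g : ℝ) + 8) * l c * ε₂ ≤ (4 * (g : ℝ) + 8) * l c * ((kc g - (g + 1)) *
        ((a c : ℝ) / (2 * g + 2) * (1 - a c / (2 * g + 2))) -
      (kc g ^ 2 * (1 - 2 * ((a c : ℝ) / (2 * g + 2))) ^ 2 + (3 * (g : ℝ)) ^ 2 / 3 +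
        (kc g * (3 * g) - (3 * (g : ℝ)) ^ 2 / 3) * ee g (a c)) / (4 * Bc g)) :=
      mul_le_mul_of_nonneg_left h3 (by positivity)
    have h5 : (4 * (g : ℝ) + 8) * ε₂ * l c = (4 * (g : ℝ) + 8) * l c * ε₂ := by ring
    rw [h5]
    refine h4.trans (le_of_eq ?_)
    rw [hc1, hc2, hc4, hd6]
    field_simp
    ring
  have hodds : ∀ c ∈ Uo, ε₁ * l c ≤ l c * w1 g (a c) (b c) + 3 * g * (4 * g + 8) *
        ((a c : ℝ) / (2 * g + 2) - b c / (4 * g + 8)) * DD l s r c := by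
    intro c hc
    have hc' := hUm c (hUom c hc).1
    have hlc := hl c hc'
    rw [(hodd c (hUom c hc).1 (hUom c hc).2).1, mul_zero, add_zero]
    have h1 := hmo (a c) (b c) (Nat.not_even_iff_odd.1 (hUom c hc).2) (hL.a_le c) (hL.b_le c)
      (hL.two_le c) (hL.proper c hc')
    nlinarith
  have sume := Finset.sum_le_sum hev
  have summ := Finset.sum_le_sum hem
  have sumo := Finset.sum_le_sum hodds
  rw [lin4] at sume summ
  rw [← Finset.mul_sum] at sumo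
  have e1 : ∑ c ∈ Ue, (4 * (g : ℝ) + 8) * ε₂ * l c = (4 * (g : ℝ) + 8) * ε₂ * ∑ c ∈ Ue, l c := by
    rw [Finset.mul_sum]
  rw [e1] at summ
  rw [hP3] at sume
  have e2 : ∑ c ∈ Ue, JJ l s r c = ∑ c ∈ Ue, l c - S := by
    rw [hSe]
    ring
  rw [e2] at sume
  -- put together
  have key : (4 * (g : ℝ) + 8) * ε₂ * ∑ c ∈ Ue, l c ≤ ∑ c ∈ Ue, (l c * w1 g (a c) (b c) +
      3 * g * (4 * g + 8) * ((a c : ℝ) / (2 * g + 2) - b c / (4 * g + 8)) * DD l s r c) := by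
    have h1 : d6 * ∑ c ∈ Ue, ee g (a c) * l c ≤ d6 * S := mul_le_mul_of_nonpos_left hSb hd6n
    linarith
  have hle : 0 ≤ ∑ c ∈ Ue, l c := Finset.sum_nonneg fun c hc => (hl c (hUm c (hUem c hc).1)).le
  have hlo : 0 ≤ ∑ c ∈ Uo, l c := Finset.sum_nonneg fun c hc => (hl c (hUm c (hUom c hc).1)).le
  have m1 : min ε₁ ((4 * (g : ℝ) + 8) * ε₂) * ∑ c ∈ Ue, l c ≤
      (4 * (g : ℝ) + 8) * ε₂ * ∑ c ∈ Ue, l c := mul_le_mul_of_nonneg_right (min_le_right _ _) hle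
  have m2 : min ε₁ ((4 * (g : ℝ) + 8) * ε₂) * ∑ c ∈ Uo, l c ≤ ε₁ * ∑ c ∈ Uo, l c :=
    mul_le_mul_of_nonneg_right (min_le_left _ _) hlo
  have tot : min ε₁ ((4 * (g : ℝ) + 8) * ε₂) * ∑ c ∈ U, l c ≤ ∑ c ∈ U, (l c * w1 g (a c) (b c) +
      3 * g * (4 * g + 8) * ((a c : ℝ) / (2 * g + 2) - b c / (4 * g + 8)) * DD l s r c) := by
    rw [split, split, mul_add]
    linarith
  have tot2 : ∑ c ∈ U, (l c * w1 g (a c) (b c) +
      3 * g * (4 * g + 8) * ((a c : ℝ) / (2 * g + 2) - b c / (4 * g + 8)) * DD l s r c) =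
      ∑ c ∈ U, l c * w1 g (a c) (b c) -
        3 * g * ∑ c ∈ U, ((b c : ℝ) - (4 * g + 8) / (2 * g + 2) * a c) * DD l s r c := by
    rw [Finset.mul_sum, ← Finset.sum_sub_distrib]
    refine Finset.sum_congr rfl fun c _ => ?_
    field_simp
    ring
  rw [tot2, ← st4] at tot
  rw [← hU]
  have e3 : 3 * (g : ℝ) * ∑ v, ((b v : ℝ) - ∑ c ∈ T.kids v, (b c : ℝ)) *
      QQ l (fun j => D v j - dl v j) ≤
      3 * (g : ℝ) * ∑ v, ((b v : ℝ) - ∑ c ∈ T.kids v, (b c : ℝ)) * hh l s r v :=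
    mul_le_mul_of_nonneg_left st3 (by positivity)
  linarith

end Pool.Agent.MNT.H20
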